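import Pool.Agent.Helper39.KZ.Stmts

/-!
# Module CON (file CTR, since CON is not a portable file name): the contraction property of the kernel, from its moments
-/

set_option autoImplicit false

open Metric Set
open scoped ComplexConjugate

namespace KZ

section CON

variable {r : ℝ}

lemma con_congr (hr : 0 < r) {E : Type*} [NormedAddCommGroup E] [NormedSpace ℝ E] {f g : ℂ → E}
    (h : ∀ s ∈ sphere (0 : ℂ) r, f s = g s) : av r f = av r g := by
  apply Real.circleAverage_congr_sphere
  rw [abs_of_pos hr]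
  exact h

lemma con_int (hr : 0 < r) {E : Type*} [NormedAddCommGroup E] {f : ℂ → E}
    (hf : ContinuousOn f (sphere 0 r)) : CircleIntegrable f 0 r :=
  hf.circleIntegrable hr.le

lemma con_re (hr : 0 < r) {f : ℂ → ℂ} (hf : ContinuousOn f (sphere 0 r)) :
    av r (fun s => (f s).re) = (av r f).re :=
  Complex.reCLM.circleAverage_comp_comm (con_int hr hf)

lemma con_conj (hr : 0 < r) {f : ℂ → ℂ} (hf : ContinuousOn f (sphere 0 r)) :
    av r (fun s => conj (f s)) = conj (av r f) :=
  (Complex.conjCLE : ℂ ≃L[ℝ] ℂ).toContinuousLinearMap.circleAverage_comp_comm (con_int hr hf)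

lemma con_ofReal (hr : 0 < r) {f : ℂ → ℝ} (hf : ContinuousOn f (sphere 0 r)) :
    av r (fun s => (f s : ℂ)) = ((av r f : ℝ) : ℂ) :=
  Complex.ofRealCLM.circleAverage_comp_comm (con_int hr hf)

lemma con_mul_left (a : ℂ) (f : ℂ → ℂ) : av r (fun s => a * f s) = a * av r f := by
  have h := Real.circleAverage_fun_smul (a := a) (f := f) (c := 0) (R := r)
  simpa only [smul_eq_mul] using h

lemma con_sum {E : Type*} [NormedAddCommGroup E] [NormedSpace ℝ E] {ι : Type*} {s : Finset ι}
    {f : ι → ℂ → E} (h : ∀ i ∈ s, CircleIntegrable (f i) 0 r) :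
    av r (fun z => ∑ i ∈ s, f i z) = ∑ i ∈ s, av r (f i) :=
  Real.circleAverage_fun_sum h

lemma con_add {E : Type*} [NormedAddCommGroup E] [NormedSpace ℝ E] {f g : ℂ → E}
    (hf : CircleIntegrable f 0 r) (hg : CircleIntegrable g 0 r) :
    av r (fun z => f z + g z) = av r f + av r g :=
  Real.circleAverage_fun_add hf hg

lemma con_sub {E : Type*} [NormedAddCommGroup E] [NormedSpace ℝ E] {f g : ℂ → E}
    (hf : CircleIntegrable f 0 r) (hg : CircleIntegrable g 0 r) :
    av r (fun z => f z - g z) = av r f - av r g :=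
  Real.circleAverage_fun_sub hf hg

/-- Cauchy-Schwarz for a probability density on the circle -/
lemma con_jensen (hr : 0 < r) {V : ℂ → ℂ} {p : ℂ → ℝ} (hV : ContinuousOn V (sphere 0 r))
    (hp : ContinuousOn p (sphere 0 r)) (hp0 : ∀ s ∈ sphere (0 : ℂ) r, 0 ≤ p s)
    (hp1 : av r p = 1) :
    ‖av r (fun s => V s * (p s : ℂ))‖ ^ 2 ≤ av r (fun s => ‖V s‖ ^ 2 * p s) := by
  set z : ℂ := av r (fun s => V s * (p s : ℂ)) with hz
  have hpC : ContinuousOn (fun s => (p s : ℂ)) (sphere 0 r) :=
    Complex.continuous_ofReal.comp_continuousOn hp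
  have hVp : ContinuousOn (fun s => V s * (p s : ℂ)) (sphere 0 r) := hV.mul hpC
  have hzV : ContinuousOn (fun s => conj z * (V s * (p s : ℂ))) (sphere 0 r) :=
    continuousOn_const.mul hVp
  have c1 : ContinuousOn (fun s => ‖V s‖ ^ 2 * p s) (sphere 0 r) := (hV.norm.pow 2).mul hp
  have c2 : ContinuousOn (fun s => (conj z * (V s * (p s : ℂ))).re) (sphere 0 r) :=
    Complex.continuous_re.comp_continuousOn hzV
  have h0 : 0 ≤ av r (fun s => ‖V s - z‖ ^ 2 * p s) := by
    apply Real.circleAverage_nonneg_of_nonneg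
    intro s hs
    rw [abs_of_pos hr] at hs
    exact mul_nonneg (sq_nonneg _) (hp0 s hs)
  have h1 : av r (fun s => ‖V s - z‖ ^ 2 * p s)
      = av r (fun s => (‖V s‖ ^ 2 * p s - 2 * (conj z * (V s * (p s : ℂ))).re)
          + ‖z‖ ^ 2 * p s) := by
    apply con_congr hr
    intro s _
    have e1 : ‖V s - z‖ ^ 2 = ‖V s‖ ^ 2 - 2 * (conj z * V s).re + ‖z‖ ^ 2 := by
      rw [← Complex.normSq_eq_norm_sq, ← Complex.normSq_eq_norm_sq, ← Complex.normSq_eq_norm_sq,
        Complex.normSq_apply, Complex.normSq_apply, Complex.normSq_apply]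
      simp only [Complex.sub_re, Complex.sub_im, Complex.mul_re, Complex.conj_re, Complex.conj_im]
      ring
    have e2 : (conj z * (V s * (p s : ℂ))).re = (conj z * V s).re * p s := by
      rw [← mul_assoc, Complex.re_mul_ofReal]
    rw [e1, e2]
    ring
  have h2 : av r (fun s => (‖V s‖ ^ 2 * p s - 2 * (conj z * (V s * (p s : ℂ))).re)
          + ‖z‖ ^ 2 * p s) = av r (fun s => ‖V s‖ ^ 2 * p s) - 2 * ‖z‖ ^ 2 + ‖z‖ ^ 2 := by
    have i1 := con_int hr c1
    have i2 := con_int hr c2
    have i3 : CircleIntegrable (fun s => 2 * (conj z * (V s * (p s : ℂ))).re) 0 r :=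
      con_int hr (continuousOn_const.mul c2)
    have i4 : CircleIntegrable (fun s => ‖z‖ ^ 2 * p s) 0 r :=
      con_int hr (continuousOn_const.mul hp)
    have i5 : CircleIntegrable (fun s => ‖V s‖ ^ 2 * p s - 2 * (conj z * (V s * (p s : ℂ))).re)
        0 r := con_int hr (c1.sub (continuousOn_const.mul c2))
    have s1 : av r (fun s => 2 * (conj z * (V s * (p s : ℂ))).re)
        = 2 * av r (fun s => (conj z * (V s * (p s : ℂ))).re) := by
      have h := Real.circleAverage_fun_smul (a := (2 : ℝ))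
        (f := fun s => (conj z * (V s * (p s : ℂ))).re) (c := 0) (R := r)
      simpa only [smul_eq_mul] using h
    have s2 : av r (fun s => ‖z‖ ^ 2 * p s) = ‖z‖ ^ 2 * av r p := by
      have h := Real.circleAverage_fun_smul (a := (‖z‖ ^ 2 : ℝ)) (f := p) (c := 0) (R := r)
      simpa only [smul_eq_mul] using h
    rw [con_add i5 i4, con_sub i1 i3, s1, s2, hp1, mul_one,
      con_re hr hzV, con_mul_left, ← hz, ← Complex.normSq_eq_conj_mul_self, Complex.ofReal_re,
      Complex.normSq_eq_norm_sq]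
  rw [h1, h2] at h0
  linarith

/-- the moment matrix of the kernel -/
noncomputable def conS (r : ℝ) (R : ℕ → ℂ → ℂ) (k l : ℕ) (t : ℂ) : ℂ :=
  if k = l then (((r : ℂ) ^ 2)⁻¹) ^ k
  else if l < k then (((r : ℂ) ^ 2)⁻¹) ^ l * R (k - l) t
  else (((r : ℂ) ^ 2)⁻¹) ^ k * conj (R (l - k) t)

lemma con_sphere {s : ℂ} (hs : s ∈ sphere (0 : ℂ) r) :
    s⁻¹ * conj s⁻¹ = ((r : ℂ) ^ 2)⁻¹ := by
  have h : ‖s‖ = r := by simpa using hs
  rw [Complex.mul_conj, Complex.normSq_eq_norm_sq, norm_inv, h]
  push_cast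
  rw [inv_pow]

lemma con_inv_cont (hr : 0 < r) : ContinuousOn (fun s : ℂ => s⁻¹) (sphere 0 r) := by
  apply continuousOn_inv₀.mono
  intro s hs
  have h : ‖s‖ = r := by simpa using hs
  intro h0
  rw [h0, norm_zero] at h
  exact hr.ne h

lemma con_pair (hr : 0 < r) {R : ℕ → ℂ → ℂ} {t : ℂ} {p : ℂ → ℝ}
    (hp : ContinuousOn p (sphere 0 r)) (hp1 : av r p = 1)
    (hR : ∀ k, 1 ≤ k → av r (fun s => s⁻¹ ^ k * (p s : ℂ)) = R k t) (k l : ℕ) :
    av r (fun s => s⁻¹ ^ k * conj (s⁻¹ ^ l) * (p s : ℂ)) = conS r R k l t := by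
  have hpC : ContinuousOn (fun s => (p s : ℂ)) (sphere 0 r) :=
    Complex.continuous_ofReal.comp_continuousOn hp
  unfold conS
  split_ifs with h1 h2
  · subst h1
    have e : av r (fun s => s⁻¹ ^ k * conj (s⁻¹ ^ k) * (p s : ℂ))
        = av r (fun s => (((r : ℂ) ^ 2)⁻¹) ^ k * (p s : ℂ)) := by
      apply con_congr hr
      intro s hs
      rw [map_pow, ← mul_pow, con_sphere hs]
    rw [e, con_mul_left, con_ofReal hr hp, hp1, Complex.ofReal_one, mul_one]
  · have e : av r (fun s => s⁻¹ ^ k * conj (s⁻¹ ^ l) * (p s : ℂ))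
        = av r (fun s => (((r : ℂ) ^ 2)⁻¹) ^ l * (s⁻¹ ^ (k - l) * (p s : ℂ))) := by
      apply con_congr hr
      intro s hs
      have hk : s⁻¹ ^ k = s⁻¹ ^ l * s⁻¹ ^ (k - l) := by
        rw [← pow_add]
        congr 1
        omega
      rw [← con_sphere hs, hk, map_pow, mul_pow]
      ring
    rw [e, con_mul_left, hR (k - l) (by omega)]
  · have e : av r (fun s => s⁻¹ ^ k * conj (s⁻¹ ^ l) * (p s : ℂ))
        = av r (fun s => (((r : ℂ) ^ 2)⁻¹) ^ k * conj (s⁻¹ ^ (l - k) * (p s : ℂ))) := by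
      apply con_congr hr
      intro s hs
      have hk : s⁻¹ ^ l = s⁻¹ ^ k * s⁻¹ ^ (l - k) := by
        rw [← pow_add]
        congr 1
        omega
      rw [← con_sphere hs, hk, mul_pow, map_mul, map_mul, Complex.conj_ofReal]
      simp only [map_pow]
      ring
    rw [e, con_mul_left, con_conj hr, hR (l - k) (by omega)]
    exact ((con_inv_cont hr).pow _).mul hpC

lemma con_cont (hr1 : r < 1) {f : ℂ → ℂ} (hf : DifferentiableOn ℂ f (ball 0 1)) :
    ContinuousOn f (sphere 0 r) := by
  apply hf.continuousOn.mono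
  intro s hs
  have h : ‖s‖ = r := by simpa using hs
  simpa [h] using hr1

lemma con_mean (hr : 0 < r) (hr1 : r < 1) {f : ℂ → ℂ} (hf : DifferentiableOn ℂ f (ball 0 1)) :
    av r f = f 0 := by
  apply DiffContOnCl.circleAverage
  rw [abs_of_pos hr]
  apply DifferentiableOn.diffContOnCl
  apply hf.mono
  rw [closure_ball (0 : ℂ) hr.ne']
  exact closedBall_subset_ball hr1

lemma con_S_cont (hr1 : r < 1) {R : ℕ → ℂ → ℂ}
    (hR : ∀ k, 1 ≤ k → DifferentiableOn ℂ (R k) (ball 0 1) ∧ R k 0 = 0) (k l : ℕ) :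
    ContinuousOn (conS r R k l) (sphere 0 r) := by
  unfold conS
  split_ifs with h1 h2
  · exact continuousOn_const
  · exact continuousOn_const.mul (con_cont hr1 (hR (k - l) (by omega)).1)
  · exact continuousOn_const.mul
      (Complex.continuous_conj.comp_continuousOn (con_cont hr1 (hR (l - k) (by omega)).1))

lemma con_S_mean (hr : 0 < r) (hr1 : r < 1) {R : ℕ → ℂ → ℂ}
    (hR : ∀ k, 1 ≤ k → DifferentiableOn ℂ (R k) (ball 0 1) ∧ R k 0 = 0) (k l : ℕ) :
    av r (conS r R k l) = if k = l then (((r : ℂ) ^ 2)⁻¹) ^ k else 0 := by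
  unfold conS
  split_ifs with h1 h2
  · exact Real.circleAverage_const _ _ _
  · have h := hR (k - l) (by omega)
    rw [con_mul_left, con_mean hr hr1 h.1, h.2, mul_zero]
  · have h := hR (l - k) (by omega)
    rw [con_mul_left, con_conj hr (con_cont hr1 h.1), con_mean hr hr1 h.1, h.2, map_zero, mul_zero]

/-- CON -/
theorem st_CON : ST_CON := by
  intro r hr hr1 R hR hK N v
  -- the majorant
  set B : ℂ → ℂ := fun t => ∑ k ∈ Finset.Icc 1 N, ∑ l ∈ Finset.Icc 1 N,
    (v k * conj (v l)) * conS r R k l t with hB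
  have hBc : ContinuousOn B (sphere 0 r) := by
    apply continuousOn_finsetSum
    intro k _
    apply continuousOn_finsetSum
    intro l _
    exact continuousOn_const.mul (con_S_cont hr1 hR k l)
  have hpt : ∀ t ∈ sphere (0 : ℂ) r,
      ‖∑ k ∈ Finset.Icc 1 N, v k * R k t‖ ^ 2 ≤ (B t).re := by
    intro t ht
    obtain ⟨p, hp, hp0, hp1, hpR⟩ := hK t ht
    have hpC : ContinuousOn (fun s => (p s : ℂ)) (sphere 0 r) :=
      Complex.continuous_ofReal.comp_continuousOn hp
    have hV : ContinuousOn (fun s : ℂ => ∑ k ∈ Finset.Icc 1 N, v k * s⁻¹ ^ k) (sphere 0 r) := by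
      apply continuousOn_finsetSum
      intro k _
      exact continuousOn_const.mul ((con_inv_cont hr).pow k)
    have h1 : av r (fun s => (∑ k ∈ Finset.Icc 1 N, v k * s⁻¹ ^ k) * (p s : ℂ))
        = ∑ k ∈ Finset.Icc 1 N, v k * R k t := by
      have e : av r (fun s => (∑ k ∈ Finset.Icc 1 N, v k * s⁻¹ ^ k) * (p s : ℂ))
          = av r (fun s => ∑ k ∈ Finset.Icc 1 N, v k * (s⁻¹ ^ k * (p s : ℂ))) := by
        apply con_congr hr
        intro s _
        rw [Finset.sum_mul]
        apply Finset.sum_congr rfl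
        intro k _
        ring
      rw [e, con_sum]
      · apply Finset.sum_congr rfl
        intro k hk
        rw [con_mul_left, hpR k (Finset.mem_Icc.1 hk).1]
      · intro k _
        exact con_int hr (continuousOn_const.mul (((con_inv_cont hr).pow k).mul hpC))
    have h2 := con_jensen hr hV hp hp0 hp1
    rw [h1] at h2
    refine h2.trans (le_of_eq ?_)
    have e : av r (fun s => ‖∑ k ∈ Finset.Icc 1 N, v k * s⁻¹ ^ k‖ ^ 2 * p s)
        = av r (fun s => (∑ k ∈ Finset.Icc 1 N, ∑ l ∈ Finset.Icc 1 N,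
            (v k * conj (v l)) * (s⁻¹ ^ k * conj (s⁻¹ ^ l) * (p s : ℂ))).re) := by
      apply con_congr hr
      intro s _
      have e1 : (∑ k ∈ Finset.Icc 1 N, ∑ l ∈ Finset.Icc 1 N,
            (v k * conj (v l)) * (s⁻¹ ^ k * conj (s⁻¹ ^ l) * (p s : ℂ)))
          = ((‖∑ k ∈ Finset.Icc 1 N, v k * s⁻¹ ^ k‖ ^ 2 * p s : ℝ) : ℂ) := by
        rw [← Complex.normSq_eq_norm_sq, Complex.ofReal_mul, ← Complex.mul_conj, map_sum,
          Finset.sum_mul_sum, Finset.sum_mul]
        apply Finset.sum_congr rfl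
        intro k _
        rw [Finset.sum_mul]
        apply Finset.sum_congr rfl
        intro l _
        rw [map_mul]
        ring
      rw [e1, Complex.ofReal_re]
    have cc : ∀ k l : ℕ, ContinuousOn (fun s : ℂ => (v k * conj (v l)) *
        (s⁻¹ ^ k * conj (s⁻¹ ^ l) * (p s : ℂ))) (sphere 0 r) := by
      intro k l
      exact continuousOn_const.mul ((((con_inv_cont hr).pow k).mul
        (Complex.continuous_conj.comp_continuousOn ((con_inv_cont hr).pow l))).mul hpC)
    rw [e, con_re hr, con_sum]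
    · congr 1
      apply Finset.sum_congr rfl
      intro k _
      rw [con_sum]
      · apply Finset.sum_congr rfl
        intro l _
        rw [con_mul_left, con_pair hr hp hp1 hpR]
      · intro l _
        exact con_int hr (cc k l)
    · intro k _
      exact con_int hr (continuousOn_finsetSum _ fun l _ => cc k l)
    · exact continuousOn_finsetSum _ fun k _ => continuousOn_finsetSum _ fun l _ => cc k l
  have hLc : ContinuousOn (fun t => ‖∑ k ∈ Finset.Icc 1 N, v k * R k t‖ ^ 2) (sphere 0 r) := by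
    apply (ContinuousOn.norm _).pow
    apply continuousOn_finsetSum
    intro k hk
    exact continuousOn_const.mul (con_cont hr1 (hR k (Finset.mem_Icc.1 hk).1).1)
  have hmono : av r (fun t => ‖∑ k ∈ Finset.Icc 1 N, v k * R k t‖ ^ 2)
      ≤ av r (fun t => (B t).re) := by
    apply Real.circleAverage_mono (con_int hr hLc)
      (con_int hr (Complex.continuous_re.comp_continuousOn hBc))
    rw [abs_of_pos hr]
    exact hpt
  refine hmono.trans (le_of_eq ?_)
  rw [con_re hr hBc, hB, con_sum]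
  · have e : ∀ k ∈ Finset.Icc 1 N,
        av r (fun t => ∑ l ∈ Finset.Icc 1 N, (v k * conj (v l)) * conS r R k l t)
          = ((‖v k‖ ^ 2 * r⁻¹ ^ (2 * k) : ℝ) : ℂ) := by
      intro k hk
      rw [con_sum]
      · have e2 : ∀ l ∈ Finset.Icc 1 N, av r (fun t => (v k * conj (v l)) * conS r R k l t)
            = if k = l then (v k * conj (v l)) * (((r : ℂ) ^ 2)⁻¹) ^ k else 0 := by
          intro l _
          rw [con_mul_left, con_S_mean hr hr1 hR]
          split_ifs <;> simp
        rw [Finset.sum_congr rfl e2, Finset.sum_ite_eq, if_pos hk, Complex.mul_conj,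
          Complex.normSq_eq_norm_sq]
        push_cast
        rw [pow_mul, inv_pow, inv_pow, inv_pow]
      · intro l _
        exact con_int hr (continuousOn_const.mul (con_S_cont hr1 hR k l))
    rw [Finset.sum_congr rfl e, ← Complex.ofReal_sum, Complex.ofReal_re]
  · intro k _
    exact con_int hr (continuousOn_finsetSum _ fun l _ =>
      continuousOn_const.mul (con_S_cont hr1 hR k l))

end CON

end KZ
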